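import Pool.Agent.J4H84.HP.Emb

/-!
# Project HP, job K13: uniqueness of expansions at infinity, smallness
-/

open Polynomial Filter Topology

set_option linter.unusedSectionVars false

namespace Pool.Agent.J4H84.HP

open Pool.Agent.J4H98.HP
open Pool.Agent.TH828.DM (Omega expA)
open Pool.Agent.N814.DR (SmallAtInfinity)

section
variable {C : Type} [NontriviallyNormedField C] [IsUltrametricDist C]

/-- the tail of a power series -/
lemma tail_bound {d : ℕ → C} {u u0 v : C} {M : ℝ} {m : ℕ} (hM : 0 ≤ M)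
    (hd : ∀ i < m, d i = 0) (hM' : ∀ i, ‖d i * u0 ^ i‖ ≤ M) (hu0 : u0 ≠ 0)
    (hu : ‖u‖ ≤ ‖u0‖) (hv : HasSum (fun i => d i * u ^ i) v) :
    ‖v - d m * u ^ m‖ ≤ M * (‖u‖ / ‖u0‖) ^ (m + 1) := by
  have h1 := hv.sub (hasSum_ite_eq m (d m * u ^ m))
  rw [← h1.tsum_eq]
  have hu0' : 0 < ‖u0‖ := norm_pos_iff.2 hu0
  have hr : 0 ≤ ‖u‖ / ‖u0‖ := by positivity
  have hr1 : ‖u‖ / ‖u0‖ ≤ 1 := div_le_one_of_le₀ hu hu0'.le
  have hB : 0 ≤ M * (‖u‖ / ‖u0‖) ^ (m + 1) := by positivity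
  apply IsUltrametricDist.norm_tsum_le_of_forall_le_of_nonneg hB
  intro i
  rcases lt_trichotomy i m with h | h | h
  · rw [hd i h, zero_mul, if_neg h.ne, sub_zero, norm_zero]
    exact hB
  · rw [h, if_pos rfl, sub_self, norm_zero]
    exact hB
  · rw [if_neg h.ne', sub_zero]
    have e : ‖d i * u ^ i‖ = ‖d i * u0 ^ i‖ * (‖u‖ / ‖u0‖) ^ i := by
      rw [norm_mul, norm_mul, norm_pow, norm_pow, div_pow]
      field_simp
    rw [e]
    exact mul_le_mul (hM' i) (pow_le_pow_of_le_one hr hr1 (by omega)) (by positivity) hM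

lemma exists_bound {d : ℕ → C} {u0 v : C} (h : HasSum (fun i => d i * u0 ^ i) v) :
    ∃ M : ℝ, 0 ≤ M ∧ ∀ i, ‖d i * u0 ^ i‖ ≤ M := by
  have h1 : Tendsto (fun i => ‖d i * u0 ^ i‖) atTop (𝓝 0) := by
    simpa using h.summable.tendsto_atTop_zero.norm
  obtain ⟨M, hM⟩ := h1.bddAbove_range
  refine ⟨M, ?_, fun i => hM ⟨i, rfl⟩⟩
  exact (norm_nonneg _).trans (hM ⟨0, rfl⟩)

lemma coeff_zero_of_frequently {d : ℕ → C} {u : ℕ → C} (hu : ∀ k, u k ≠ 0)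
    (hlim : Tendsto (fun k => ‖u k‖) atTop (𝓝 0))
    (hs : ∀ k, HasSum (fun i => d i * u k ^ i) 0) : ∀ m, d m = 0 := by
  obtain ⟨M, hM0, hM⟩ := exists_bound (hs 0)
  have hu0 : 0 < ‖u 0‖ := norm_pos_iff.2 (hu 0)
  intro m
  induction m using Nat.strong_induction_on with
  | _ m ih =>
    rw [← norm_le_zero_iff]
    have h1 : ∀ᶠ k in atTop, ‖d m‖ ≤ M / ‖u 0‖ ^ (m + 1) * ‖u k‖ := by
      filter_upwards [hlim.eventually_le_const hu0] with k hk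
      have h2 := tail_bound hM0 ih hM (hu 0) hk (hs k)
      have huk : 0 < ‖u k‖ := norm_pos_iff.2 (hu k)
      rw [zero_sub, norm_neg, norm_mul, norm_pow, div_pow, pow_succ ‖u k‖] at h2
      have h3 : ‖d m‖ * ‖u k‖ ^ m ≤ (M / ‖u 0‖ ^ (m + 1) * ‖u k‖) * ‖u k‖ ^ m := by
        calc _ ≤ _ := h2
          _ = _ := by ring
      exact le_of_mul_le_mul_right h3 (by positivity)
    have h4 : Tendsto (fun k => M / ‖u 0‖ ^ (m + 1) * ‖u k‖) atTop (𝓝 0) := by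
      simpa using hlim.const_mul (M / ‖u 0‖ ^ (m + 1))
    exact ge_of_tendsto h4 h1

end

section
variable {Fq C : Type} [Field Fq] [Fintype Fq] [NontriviallyNormedField C]
  [IsUltrametricDist C] [CompleteSpace C] [IsAlgClosed C] [Algebra Fq C] {t s : C}

lemma norm_Kinf {t s : C} {ι : Kinf Fq →+* C} (h : Sta t s ι) {x : C}
    (hx : x ∈ Pool.Agent.TH828.DM.Kinf Fq t) : x = 0 ∨ ∃ n : ℤ, ‖x‖ = ‖t‖ ^ n := by
  obtain ⟨y, rfl⟩ := (h.range x).1 hx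
  by_cases hy : y = 0
  · left; rw [hy, map_zero]
  · right; exact ⟨_, h.norm y hy⟩

lemma far_pt {ι : Kinf Fq →+* C} (h : Sta t s ι) (k : ℕ) : Far Fq t ‖s * t ^ k‖ (s * t ^ k) := by
  intro x hx
  have hs1 : 1 < ‖s‖ := Pool.Agent.TH828.DM.norm_s h.hs h.ht
  have hs0 : 0 < ‖s‖ := by linarith
  have hne : ‖s * t ^ k‖ ≠ ‖x‖ := by
    intro he
    rcases norm_Kinf h hx with rfl | ⟨n, hn⟩
    · rw [norm_zero, norm_mul, norm_pow] at he
      have : 0 < ‖t‖ := by linarith [h.ht]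
      have : 0 < ‖s‖ * ‖t‖ ^ k := by positivity
      linarith
    · rw [hn, norm_mul, norm_pow, Pool.Agent.TH828.DM.norm_t_eq h.hs] at he
      have h1 : ‖s‖ ^ ((2 * k + 1 : ℤ)) = ‖s‖ ^ (2 * n : ℤ) := by
        rw [zpow_mul, zpow_add₀ hs0.ne', zpow_mul, zpow_one, mul_comm]
        norm_cast at he ⊢
      have h2 := zpow_right_injective₀ hs0 hs1.ne' h1
      omega
  have e : s * t ^ k - x = s * t ^ k + (-x) := by ring
  rw [e, IsUltrametricDist.norm_add_eq_max_of_norm_ne_norm (by rwa [norm_neg])]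
  exact le_max_left _ _

lemma omega_of_far {ρ : ℝ} (hρ : 0 < ρ) {z : C} (h : Far Fq t ρ z) : z ∈ Omega Fq t := by
  intro hz
  have := h z hz
  rw [sub_self, norm_zero] at this
  linarith

/-- points tending to infinity -/
lemma far_seq (h5 : S_EXPA) (ht : 1 < ‖t‖) {ϖ : C} (hϖ : ϖ ≠ 0) (R : ℝ) :
    ∃ z : ℕ → C, (∀ k, z k ∈ Omega Fq t) ∧ (∀ k, Far Fq t R (z k)) ∧
      (∀ k, (ϖ * expA Fq t (z k))⁻¹ ≠ 0) ∧
      Tendsto (fun k => ‖(ϖ * expA Fq t (z k))⁻¹‖) atTop (𝓝 0) := by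
  obtain ⟨s, ι, h⟩ := t_EMB Fq C t ht
  have hs1 : 1 < ‖s‖ := Pool.Agent.TH828.DM.norm_s h.hs h.ht
  obtain ⟨k0, hk0⟩ := pow_unbounded_of_one_lt R ht
  have hn : ∀ k, ‖t‖ ^ (k0 + k) ≤ ‖s * t ^ (k0 + k)‖ := by
    intro k
    rw [norm_mul, norm_pow]
    have : 0 ≤ ‖t‖ ^ (k0 + k) := by positivity
    nlinarith
  have h1 : ∀ k, Far Fq t (‖t‖ ^ (k0 + k)) (s * t ^ (k0 + k)) := fun k x hx =>
    (hn k).trans (far_pt h _ x hx)
  have hE := h5 Fq C t ht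
  have h2 : ∀ k, ‖t‖ ^ (k0 + k) ≤ ‖expA Fq t (s * t ^ (k0 + k))‖ := fun k =>
    hE.2.2.2.2.1 _ _ (one_le_pow₀ ht.le) (h1 k)
  have hpos : ∀ k, 0 < ‖t‖ ^ (k0 + k) := fun k => by
    have : 0 < ‖t‖ := by linarith
    positivity
  have hϖ' : 0 < ‖ϖ‖ := norm_pos_iff.2 hϖ
  refine ⟨fun k => s * t ^ (k0 + k), ?_, ?_, ?_, ?_⟩
  · intro k
    exact omega_of_far (hpos k) (h1 k)
  · intro k x hx
    refine le_trans ?_ (h1 k x hx)
    exact hk0.le.trans (pow_le_pow_right₀ ht.le (by omega))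
  · intro k
    apply inv_ne_zero
    apply mul_ne_zero hϖ
    rw [← norm_pos_iff]
    exact (hpos k).trans_le (h2 k)
  · have h3 : ∀ k, ‖(ϖ * expA Fq t (s * t ^ (k0 + k)))⁻¹‖ ≤ ‖ϖ‖⁻¹ * (‖t‖⁻¹) ^ (k0 + k) := by
      intro k
      rw [norm_inv, norm_mul, mul_inv, inv_pow]
      exact mul_le_mul_of_nonneg_left (inv_anti₀ (hpos k) (h2 k)) (by positivity)
    refine squeeze_zero (fun _ => norm_nonneg _) h3 ?_
    have h4 : Tendsto (fun k => (‖t‖⁻¹) ^ (k0 + k)) atTop (𝓝 0) := by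
      have := tendsto_pow_atTop_nhds_zero_of_lt_one (r := ‖t‖⁻¹) (by positivity)
        (inv_lt_one_of_one_lt₀ ht)
      exact this.comp (tendsto_add_atTop_nat k0 |>.congr (fun n => by rw [add_comm]))
    simpa using h4.const_mul (‖ϖ‖⁻¹)

theorem t_UNIQ (h5 : S_EXPA) : S_UNIQ := by
  intro Fq C _ _ _ _ _ _ _ t ϖ ht hϖ f a b ha
  obtain ⟨R, hR⟩ := ha
  constructor
  · rintro ⟨R', hR'⟩
    obtain ⟨z, hz1, hz2, hz3, hz4⟩ := far_seq (Fq := Fq) h5 ht hϖ (max R R')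
    have h1 : ∀ k, HasSum (fun i => (a i - b i) * (ϖ * expA Fq t (z k))⁻¹ ^ i) 0 := by
      intro k
      have h2 := hR (z k) (hz1 k) (fun x hx => (le_max_left _ _).trans (hz2 k x hx))
      have h3 := hR' (z k) (hz1 k) (fun x hx => (le_max_right _ _).trans (hz2 k x hx))
      have h4 := h2.sub h3
      rw [sub_self] at h4
      refine h4.congr_fun ?_
      intro i
      ring
    funext i
    exact sub_eq_zero.1 (coeff_zero_of_frequently hz3 hz4 h1 i)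
  · intro ha0 ε hε
    obtain ⟨z, hz1, hz2, hz3, hz4⟩ := far_seq (Fq := Fq) h5 ht hϖ R
    obtain ⟨M, hM0, hM⟩ := exists_bound (hR (z 0) (hz1 0) (hz2 0))
    set u0 := (ϖ * expA Fq t (z 0))⁻¹ with hu0
    have hu0' : 0 < ‖u0‖ := norm_pos_iff.2 (hz3 0)
    have hϖ' : 0 < ‖ϖ‖ := norm_pos_iff.2 hϖ
    set R1 : ℝ := max (max R 1) (max (1 / (‖ϖ‖ * ‖u0‖)) ((M + 1) / (‖ϖ‖ * ‖u0‖ * ε))) with hR1
    have hR1a : R ≤ R1 := (le_max_left _ _).trans (le_max_left _ _)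
    have hR1b : 1 ≤ R1 := (le_max_right _ _).trans (le_max_left _ _)
    have hR1c : 1 / (‖ϖ‖ * ‖u0‖) ≤ R1 := (le_max_left _ _).trans (le_max_right _ _)
    have hR1d : (M + 1) / (‖ϖ‖ * ‖u0‖ * ε) ≤ R1 := (le_max_right _ _).trans (le_max_right _ _)
    refine ⟨R1, fun y hy hfar => ?_⟩
    have hsum := hR y hy (fun x hx => hR1a.trans (hfar x hx))
    have he : R1 ≤ ‖expA Fq t y‖ := (h5 Fq C t ht).2.2.2.2.1 y R1 hR1b hfar
    have hR1pos : 0 < R1 := by linarith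
    have hu : ‖(ϖ * expA Fq t y)⁻¹‖ ≤ (‖ϖ‖ * R1)⁻¹ := by
      rw [norm_inv, norm_mul]
      apply inv_anti₀ (by positivity)
      exact mul_le_mul_of_nonneg_left he hϖ'.le
    have hu1 : (‖ϖ‖ * R1)⁻¹ ≤ ‖u0‖ := by
      rw [div_le_iff₀ (by positivity)] at hR1c
      rw [inv_le_iff_one_le_mul₀ (by positivity)]
      nlinarith
    have h6 := tail_bound (m := 0) hM0 (by simp) hM (hz3 0) (hu.trans hu1) hsum
    rw [ha0, zero_mul, sub_zero, zero_add, pow_one] at h6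
    refine h6.trans ?_
    rw [div_le_iff₀ (by positivity)] at hR1d
    have h7 : ‖(ϖ * expA Fq t y)⁻¹‖ / ‖u0‖ ≤ (‖ϖ‖ * R1)⁻¹ / ‖u0‖ :=
      div_le_div_of_nonneg_right hu hu0'.le
    calc M * (‖(ϖ * expA Fq t y)⁻¹‖ / ‖u0‖) ≤ M * ((‖ϖ‖ * R1)⁻¹ / ‖u0‖) :=
          mul_le_mul_of_nonneg_left h7 hM0
      _ = M / (‖ϖ‖ * R1 * ‖u0‖) := by field_simp
      _ ≤ ε := by
        rw [div_le_iff₀ (by positivity)]
        nlinarith

end

end Pool.Agent.J4H84.HP
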