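import Pool.Agent.J4H8.HP.Core1a
import Pool.Agent.J4H98.HP.Jobs2

/-!
# Project HP, job K11: in characteristic `p` one cusp condition implies the other
-/

open Polynomial Matrix

set_option linter.unusedSectionVars false

namespace Pool.Agent.J4H84.HP

open Pool.Agent.J4H98.HP Pool.Agent.J4H8.HP

variable {Fq : Type} [Field Fq] [Fintype Fq] {n : Fq[X]} {N : Type} [AddCommGroup N]
  {Φ : Matrix (Fin 2) (Fin 2) Fq[X] → ℤ → Kinf Fq → N}

lemma zero5c (hn : n.Monic) (h4 : n.natDegree = 4) (h0 : Fam0 n Φ)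
    (hN : ∀ x : N, (Fintype.card Fq) • x = 0) : Φ 1 5 0 = 0 := by
  rw [rev h0, neg_eq_zero]
  have e : (1 : ℤ) - 5 = -4 := by norm_num
  rw [e, h0.sum _ det_w]
  have h1 : ∀ c : Fq, Φ !![0, 1; 1, 0] (-4 + 1) (0 + HahnSeries.single (-4 : ℤ) c) =
      Φ !![0, 1; 1, 0] (-3) 0 := by
    intro c
    have e2 : (-4 : ℤ) + 1 = -3 := by norm_num
    have e3 : (HahnSeries.single (-4 : ℤ) c : Kinf Fq) =
        emb Fq (Polynomial.C c * (X ^ 4 - n)) + emb Fq (n * Polynomial.C c) := by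
      rw [← map_add]
      have : Polynomial.C c * (X ^ 4 - n) + n * Polynomial.C c = Polynomial.C c * X ^ 4 := by ring
      rw [this, emb_CX]
      norm_num
    rw [e2, zero_add, e3, per0 h0]
    rw [h0.congr _ det_w (-3) _ 0]
    rw [sub_zero]
    refine val_emb (d := 3) ?_
    rw [Polynomial.natDegree_le_iff_coeff_eq_zero]
    intro i hi
    rw [Polynomial.coeff_C_mul, Polynomial.coeff_sub, Polynomial.coeff_X_pow]
    rcases eq_or_ne i 4 with h | h
    · rw [h, if_pos rfl]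
      have : n.coeff 4 = 1 := by rw [← h4]; exact hn
      rw [this, sub_self, mul_zero]
    · rw [if_neg h, Polynomial.coeff_eq_zero_of_natDegree_lt (by omega), sub_zero, mul_zero]
  rw [Finset.sum_congr rfl (fun c _ => h1 c), Finset.sum_const, Finset.card_univ, hN]

theorem cuspC_aux (κ : Type) [Field κ] [Fintype κ] [Algebra Fq κ] (ev : Fq[X] →ₐ[Fq] κ)
    (hn : n.Monic) (h4 : n.natDegree = 4) (hs : Function.Surjective ev)
    (hk : ∀ b, ev b = 0 ↔ n ∣ b) (h0 : Fam0 n Φ)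
    (hN : ∀ x : N, (Fintype.card Fq) • x = 0) (hinf : Φ 1 1 0 = 0) :
    Φ !![0, 1; 1, 0] (-3) 0 = 0 := by
  classical
  have hn0 : emb Fq n ≠ 0 := emb_ne hn.ne_zero
  have hwell : ∀ b b' : Fq[X], ev b = ev b' → Φ 1 5 (emb Fq b / emb Fq n) = Φ 1 5 (emb Fq b' / emb Fq n) := by
    intro b b' h
    rw [← sub_eq_zero, ← map_sub, hk] at h
    obtain ⟨a, ha⟩ := h
    have e : emb Fq b / emb Fq n = emb Fq b' / emb Fq n + emb Fq a := by
      have : b = b' + n * a := by rw [← ha]; ring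
      rw [this, map_add, map_mul]
      field_simp
    rw [e, per h0]
  obtain ⟨Gf, hGf⟩ : ∃ Gf : κ → N, ∀ b, Gf (ev b) = Φ 1 5 (emb Fq b / emb Fq n) :=
    ⟨fun x => Φ 1 5 (emb Fq (Function.surjInv hs x) / emb Fq n), fun b =>
      hwell _ _ (Function.surjInv_eq hs (ev b))⟩
  have hhom : ∀ c : Fq, c ≠ 0 → ∀ b, Gf (algebraMap Fq κ c * b) = Gf b := by
    intro c hc b
    obtain ⟨p, rfl⟩ := hs b
    have e : algebraMap Fq κ c * ev p = ev (Polynomial.C c * p) := by
      rw [map_mul]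
      congr 1
      exact (ev.commutes c).symm
    rw [e, hGf, hGf, map_mul, emb_C, mul_div_assoc, hom h0 _ _ hc]
  have hone : ∀ (r : Fq[X]), Φ 1 4 (emb Fq r / emb Fq n) = ∑ x : Fq, Gf (ev r + algebraMap Fq κ x) := by
    intro r
    have h1 := refine5 hn h4 h0 1 r
    have e1 : (5 : ℤ) - ((1 : ℕ) : ℤ) = 4 := by norm_num
    rw [e1] at h1
    rw [h1]
    refine Fintype.sum_equiv (Equiv.funUnique (Fin 1) Fq) _ _ fun v => ?_
    rw [← hGf, map_add]
    congr 2
    have : pol v = Polynomial.C (v 0) := by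
      unfold pol
      simp
    rw [this]
    exact ev.commutes _
  have hG0 : Gf 0 = 0 := by
    have := hGf 0
    rw [map_zero, map_zero, zero_div, zero5c hn h4 h0 hN] at this
    exact this
  have hGx : ∑ x : Fq, Gf (algebraMap Fq κ x) = -Φ !![0, 1; 1, 0] (-3) 0 := by
    have h1 := hone 0
    rw [map_zero, map_zero, zero_div, rev h0] at h1
    have e : (1 : ℤ) - 4 = -3 := by norm_num
    rw [e] at h1
    rw [h1]
    refine Finset.sum_congr rfl fun x _ => ?_
    rw [zero_add]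
  have hinv : ∀ b : κ, b ≠ 0 → Gf b = -∑ x : Fq, Gf (b⁻¹ + algebraMap Fq κ x) := by
    intro b hb
    obtain ⟨p, rfl⟩ := hs b
    obtain ⟨p', hp'⟩ := hs (ev p)⁻¹
    have hpp : n ∣ p * p' - 1 := by
      rw [← hk, map_sub, map_mul, hp', map_one, mul_inv_cancel₀ hb, sub_self]
    obtain ⟨e, he⟩ := hpp
    obtain ⟨γ, hγ⟩ : ∃ γ : Matrix (Fin 2) (Fin 2) Fq[X], γ = !![p, e; n, p'] := ⟨_, rfl⟩
    have hdet : IsUnit γ.det := by
      rw [hγ, Matrix.det_fin_two_of]
      have : p * p' - e * n = 1 := by linear_combination he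
      rw [this]; exact isUnit_one
    have e10 : γ 1 0 = n := by rw [hγ]; rfl
    have e00 : γ 0 0 = p := by rw [hγ]; rfl
    have e11 : γ 1 1 = p' := by rw [hγ]; rfl
    have h1 := h0.moebB 1 γ det_one' hdet 4 (emb Fq (-p') / emb Fq n) (by rw [e10]; exact hn.ne_zero) (by
      unfold den
      rw [e10, e11, map_neg]
      have : emb Fq n * (-emb Fq p' / emb Fq n) + emb Fq p' = 0 := by
        field_simp
        ring
      rw [this]
      exact val_zero _)
    have h2 := h0.inv 1 det_one' γ hdet (by rw [e10])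
    rw [Matrix.mul_one] at h2
    rw [Matrix.one_mul, h2, e10, e00, h4] at h1
    have e3 : (1 : ℤ) - 4 + 2 * ((4 : ℕ) : ℤ) = 5 := by norm_num
    rw [e3, hone] at h1
    rw [hGf, ← neg_eq_iff_eq_neg, ← h1, ← hp']
    rw [← Equiv.sum_comp (Equiv.neg Fq)]
    refine Finset.sum_congr rfl fun x _ => ?_
    have h3 := hhom (-1) (neg_ne_zero.2 one_ne_zero) (ev p' + algebraMap Fq κ x)
    rw [← h3]
    congr 1
    simp only [Equiv.neg_apply, map_neg, map_one]
    ring
  have hsum : ∑ b : κ, Gf b = 0 := by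
    have h1 := refine5 hn h4 h0 4 0
    have e1 : (5 : ℤ) - ((4 : ℕ) : ℤ) = 1 := by norm_num
    rw [e1, map_zero, zero_div, hinf] at h1
    rw [h1]
    refine (Fintype.sum_bijective _ (res_bij ev hn h4 hs hk) _ _ fun v => ?_).symm
    rw [hGf, zero_add]
  -- sum over all `b`
  have hA : ∑ b : κ, ∑ x : Fq, Gf (b + algebraMap Fq κ x) = 0 := by
    rw [Finset.sum_comm]
    apply Finset.sum_eq_zero
    intro x _
    rw [← hsum]
    exact Fintype.sum_equiv (Equiv.addRight (algebraMap Fq κ x)) _ _ (fun b => rfl)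
  have hB : ∑ b : κ, ∑ x : Fq, Gf (b⁻¹ + algebraMap Fq κ x) = 0 := by
    rw [← hA]
    exact Fintype.sum_bijective (fun b : κ => b⁻¹) inv_involutive.bijective _ _ (fun b => rfl)
  have hC : ∑ b ∈ (Finset.univ : Finset κ).erase 0, Gf b = 0 := by
    have := Finset.add_sum_erase (Finset.univ : Finset κ) Gf (Finset.mem_univ 0)
    rw [hG0, zero_add, hsum] at this
    exact this
  have hD : ∑ b ∈ (Finset.univ : Finset κ).erase 0, Gf b =
      -∑ b ∈ (Finset.univ : Finset κ).erase 0, ∑ x : Fq, Gf (b⁻¹ + algebraMap Fq κ x) := by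
    rw [← Finset.sum_neg_distrib]
    apply Finset.sum_congr rfl
    intro b hb
    exact hinv b (Finset.ne_of_mem_erase hb)
  have hE := Finset.add_sum_erase (Finset.univ : Finset κ)
    (fun b => ∑ x : Fq, Gf (b⁻¹ + algebraMap Fq κ x)) (Finset.mem_univ 0)
  simp only [_root_.inv_zero, zero_add] at hE
  rw [hB, hGx] at hE
  rw [hD, neg_eq_zero] at hC
  rw [hC, add_zero] at hE
  exact neg_eq_zero.1 hE

theorem t_CUSPC : S_CUSPC := by
  intro Fq _ _ n hn h4 hirr N _ hN Φ h0 hinf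
  have : Fact (Irreducible n) := ⟨hirr⟩
  have : Finite (AdjoinRoot n) := by
    have h1 : Module.Finite Fq (AdjoinRoot n) := (AdjoinRoot.powerBasis hirr.ne_zero).finite
    exact Module.finite_of_finite Fq
  have : Fintype (AdjoinRoot n) := Fintype.ofFinite _
  refine cuspC_aux (AdjoinRoot n) (AdjoinRoot.mkₐ n) hn h4 ?_ ?_ h0 hN hinf
  · exact AdjoinRoot.mk_surjective
  · intro b
    exact AdjoinRoot.mk_eq_zero

end Pool.Agent.J4H84.HP
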