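import Pool.Agent.J4H98.HP.Jobs2

/-!
# Project HP, job K1: the embedding `F_q((π)) → C`
-/

open Polynomial Filter Topology

set_option linter.unusedSectionVars false

namespace Pool.Agent.J4H84.HP

open Pool.Agent.J4H98.HP
open Pool.Agent.TH828.DM (norm_algebraMap norm_algebraMap_le norm_aeval_le norm_aeval
  exists_poly_near aeval_mem_Kinf t_mem_Kinf algebraMap_mem_Kinf norm_sub_le_of)

section
variable {Fq C : Type} [Field Fq] [Fintype Fq] [NontriviallyNormedField C]
  [IsUltrametricDist C] [CompleteSpace C] [Algebra Fq C] {t : C}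

/-- evaluation of power series at `t⁻¹` -/
noncomputable def evf (t : C) (f : PowerSeries Fq) : C :=
  ∑' n, algebraMap Fq C (PowerSeries.coeff n f) * t⁻¹ ^ n

lemma norm_term_le (t : C) (f : PowerSeries Fq) (n : ℕ) :
    ‖algebraMap Fq C (PowerSeries.coeff n f) * t⁻¹ ^ n‖ ≤ ‖t⁻¹‖ ^ n := by
  rw [norm_mul, norm_pow]
  calc _ ≤ 1 * ‖t⁻¹‖ ^ n := by
        apply mul_le_mul_of_nonneg_right (norm_algebraMap_le _) (by positivity)
    _ = _ := one_mul _

lemma inv_lt (ht : 1 < ‖t‖) : ‖t⁻¹‖ < 1 := by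
  rw [norm_inv]; exact inv_lt_one_of_one_lt₀ ht

lemma summable_norm_term (ht : 1 < ‖t‖) (f : PowerSeries Fq) :
    Summable fun n => ‖algebraMap Fq C (PowerSeries.coeff n f) * t⁻¹ ^ n‖ :=
  Summable.of_nonneg_of_le (fun _ => norm_nonneg _) (norm_term_le t f)
    (summable_geometric_of_lt_one (norm_nonneg _) (inv_lt ht))

lemma summable_term (ht : 1 < ‖t‖) (f : PowerSeries Fq) :
    Summable fun n => algebraMap Fq C (PowerSeries.coeff n f) * t⁻¹ ^ n :=
  (summable_norm_term ht f).of_norm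

lemma evf_one : evf t (1 : PowerSeries Fq) = 1 := by
  unfold evf
  rw [tsum_eq_single 0]
  · simp
  · intro n hn
    simp [PowerSeries.coeff_one, hn]

lemma evf_mul (ht : 1 < ‖t‖) (f g : PowerSeries Fq) : evf t (f * g) = evf t f * evf t g := by
  unfold evf
  rw [tsum_mul_tsum_eq_tsum_sum_antidiagonal_of_summable_norm (summable_norm_term ht f)
    (summable_norm_term ht g)]
  apply tsum_congr
  intro n
  rw [PowerSeries.coeff_mul, map_sum, Finset.sum_mul]
  apply Finset.sum_congr rfl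
  intro p hp
  have hp' : p.1 + p.2 = n := by simpa using hp
  rw [map_mul, ← hp', pow_add]
  ring

lemma evf_add (ht : 1 < ‖t‖) (f g : PowerSeries Fq) : evf t (f + g) = evf t f + evf t g := by
  unfold evf
  rw [← (summable_term ht f).tsum_add (summable_term ht g)]
  apply tsum_congr
  intro n
  rw [map_add, map_add, add_mul]

/-- the evaluation as a ring homomorphism -/
noncomputable def evH (ht : 1 < ‖t‖) : PowerSeries Fq →+* C where
  toFun := evf t
  map_one' := evf_one
  map_mul' := evf_mul ht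
  map_zero' := by simp [evf]
  map_add' := evf_add ht

lemma evf_C (a : Fq) : evf t (PowerSeries.C a) = algebraMap Fq C a := by
  unfold evf
  rw [tsum_eq_single 0]
  · simp
  · intro n hn
    simp [PowerSeries.coeff_C, hn]

lemma evf_X : evf t (PowerSeries.X : PowerSeries Fq) = t⁻¹ := by
  unfold evf
  rw [tsum_eq_single 1]
  · simp
  · intro n hn
    simp [PowerSeries.coeff_X, hn]

lemma norm_evf_le (ht : 1 < ‖t‖) (f : PowerSeries Fq) : ‖evf t f‖ ≤ 1 := by
  unfold evf
  apply IsUltrametricDist.norm_tsum_le_of_forall_le_of_nonneg zero_le_one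
  intro n
  exact (norm_term_le t f n).trans (pow_le_one₀ (norm_nonneg _) (inv_lt ht).le)

lemma norm_evf_unit (ht : 1 < ‖t‖) (f : PowerSeries Fq) (hf : PowerSeries.coeff 0 f ≠ 0) :
    ‖evf t f‖ = 1 := by
  have h1 : f = PowerSeries.C (PowerSeries.coeff 0 f) +
      PowerSeries.X * PowerSeries.mk (fun n => PowerSeries.coeff (n + 1) f) := by
    ext n
    rcases n with _ | n
    · simp
    · simp [PowerSeries.coeff_succ_X_mul]
  rw [h1, evf_add ht, evf_C, evf_mul ht, evf_X]
  have h2 : ‖algebraMap Fq C (PowerSeries.coeff 0 f)‖ = 1 := norm_algebraMap hf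
  have h3 : ‖t⁻¹ * evf t (PowerSeries.mk (fun n => PowerSeries.coeff (n + 1) f))‖ < 1 := by
    rw [norm_mul]
    calc _ ≤ ‖t⁻¹‖ * 1 := mul_le_mul_of_nonneg_left (norm_evf_le ht _) (norm_nonneg _)
      _ < 1 := by rw [mul_one]; exact inv_lt ht
  rw [IsUltrametricDist.norm_add_eq_max_of_norm_ne_norm (by rw [h2]; exact h3.ne'), h2]
  exact max_eq_left h3.le

lemma evH_inj (ht : 1 < ‖t‖) : Function.Injective (evH (Fq := Fq) ht) := by
  rw [injective_iff_map_eq_zero]
  intro f hf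
  by_contra hne
  obtain ⟨n, g, hg0, hg⟩ : ∃ (n : ℕ) (g : PowerSeries Fq), PowerSeries.coeff 0 g ≠ 0 ∧
      f = PowerSeries.X ^ n * g := by
    obtain ⟨g, hg⟩ := PowerSeries.X_pow_order_dvd (φ := f)
    refine ⟨_, g, ?_, hg⟩
    intro h0
    have h1 := PowerSeries.coeff_order hne
    have h2 := congrArg (PowerSeries.coeff f.order.toNat) hg
    rw [PowerSeries.coeff_X_pow_mul', if_pos le_rfl, Nat.sub_self, h0] at h2
    exact h1 h2
  have h1 : evf t f = 0 := hf
  have ht0 : t ≠ 0 := by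
    rintro rfl
    simp at ht
    linarith
  have h2 : evf t f = t⁻¹ ^ n * evf t g := by
    have : evH ht f = evH ht (PowerSeries.X ^ n * g) := by rw [← hg]
    rw [map_mul, map_pow] at this
    have hX : evH (Fq := Fq) ht PowerSeries.X = t⁻¹ := evf_X
    rw [hX] at this
    exact this
  rw [h1] at h2
  have h3 := norm_evf_unit ht g hg0
  have h4 : t⁻¹ ^ n * evf t g ≠ 0 := by
    apply mul_ne_zero (pow_ne_zero _ (inv_ne_zero ht0))
    intro h
    rw [h, norm_zero] at h3
    exact zero_ne_one h3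
  exact h4 h2.symm

/-- the embedding of `F_q((π))` -/
noncomputable def io (ht : 1 < ‖t‖) : Kinf Fq →+* C :=
  IsFractionRing.lift (A := PowerSeries Fq) (K := LaurentSeries Fq) (g := evH ht) (evH_inj ht)

lemma io_coe (ht : 1 < ‖t‖) (f : PowerSeries Fq) :
    io ht (HahnSeries.ofPowerSeries ℤ Fq f) = evf t f := by
  have := IsFractionRing.lift_algebraMap (A := PowerSeries Fq) (K := LaurentSeries Fq)
    (g := evH ht) (evH_inj ht) f
  rw [LaurentSeries.coe_algebraMap] at this
  exact this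

lemma ne_zero_of (ht : 1 < ‖t‖) : t ≠ 0 := by
  rintro rfl
  simp at ht
  linarith

lemma io_single_one (ht : 1 < ‖t‖) :
    io ht (HahnSeries.single (1 : ℤ) (1 : Fq)) = t⁻¹ := by
  have h := io_coe ht (PowerSeries.X : PowerSeries Fq)
  rw [evf_X] at h
  rw [← h]
  congr 1
  exact (HahnSeries.ofPowerSeries_X).symm

lemma io_single (ht : 1 < ‖t‖) (n : ℤ) :
    io ht (HahnSeries.single n (1 : Fq)) = t ^ (-n) := by
  have h1 : (HahnSeries.single n (1 : Fq) : Kinf Fq) = (HahnSeries.single (1 : ℤ) (1 : Fq)) ^ n := by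
    exact RatFunc.single_zpow n
  rw [h1, map_zpow₀, io_single_one, inv_zpow, zpow_neg]

lemma io_C (ht : 1 < ‖t‖) (a : Fq) : io ht (HahnSeries.C a : Kinf Fq) = algebraMap Fq C a := by
  have h := io_coe ht (PowerSeries.C a : PowerSeries Fq)
  rw [evf_C] at h
  rw [← h]
  congr 1
  exact (HahnSeries.ofPowerSeries_C a).symm

lemma io_emb (ht : 1 < ‖t‖) (a : Fq[X]) : io ht (emb Fq a) = aeval t a := by
  have h : (io (Fq := Fq) ht).comp (emb Fq) = (aeval t : Fq[X] →ₐ[Fq] C).toRingHom := by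
    apply Polynomial.ringHom_ext
    · intro b
      simp only [emb, RingHom.comp_apply, Polynomial.coe_eval₂RingHom, Polynomial.eval₂_C,
        AlgHom.toRingHom_eq_coe, RingHom.coe_coe, Polynomial.aeval_C]
      exact io_C ht b
    · simp [emb, io_single]
  exact congrArg (fun g : Fq[X] →+* C => g a) h

lemma io_eq (ht : 1 < ‖t‖) (x : Kinf Fq) :
    io ht x = t ^ (-x.order) * evf t (LaurentSeries.powerSeriesPart x) := by
  conv_lhs => rw [← x.single_order_mul_powerSeriesPart]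
  rw [map_mul, io_single, io_coe]

lemma io_norm (ht : 1 < ‖t‖) (x : Kinf Fq) (hx : x ≠ 0) : ‖io ht x‖ = ‖t‖ ^ (-x.order) := by
  rw [io_eq, norm_mul, norm_evf_unit ht, mul_one, norm_zpow]
  rw [LaurentSeries.powerSeriesPart_coeff]
  rw [Nat.cast_zero, add_zero]
  exact fun h => hx (HahnSeries.coeff_order_eq_zero.1 h)

lemma evf_mem (ht : 1 < ‖t‖) (f : PowerSeries Fq) :
    evf t f ∈ Pool.Agent.TH828.DM.Kinf Fq t := by
  have hc : IsClosed ((Pool.Agent.TH828.DM.Kinf Fq t : Subfield C) : Set C) :=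
    Subfield.isClosed_topologicalClosure _
  refine hc.mem_of_tendsto (summable_term ht f).hasSum.tendsto_sum_nat (Eventually.of_forall ?_)
  intro n
  apply sum_mem
  intro i _
  exact mul_mem (algebraMap_mem_Kinf t _) (pow_mem (inv_mem (t_mem_Kinf t)) _)

lemma io_mem (ht : 1 < ‖t‖) (x : Kinf Fq) : io ht x ∈ Pool.Agent.TH828.DM.Kinf Fq t := by
  rw [io_eq]
  exact mul_mem (zpow_mem (t_mem_Kinf t) _) (evf_mem ht _)

lemma io_surj (ht : 1 < ‖t‖) {y : C} (hy : y ∈ Pool.Agent.TH828.DM.Kinf Fq t) :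
    ∃ x : Kinf Fq, io ht x = y := by
  have ht0 : 0 < ‖t‖ := by linarith
  have htne : t ≠ 0 := ne_zero_of ht
  have h1 : ∀ n : ℕ, ∃ a : Fq[X], ‖t ^ n * y - aeval t a‖ ≤ ‖t‖⁻¹ := fun n =>
    exists_poly_near ht (mul_mem (pow_mem (t_mem_Kinf t) _) hy)
  choose a ha using h1
  have h2 : ∀ n, ∃ c : Fq, a (n + 1) = X * a n + Polynomial.C c := by
    intro n
    have h3 : ‖aeval t (a (n + 1) - X * a n)‖ ≤ 1 := by
      have e : aeval t (a (n + 1) - X * a n) =
          t * (t ^ n * y - aeval t (a n)) - (t ^ (n + 1) * y - aeval t (a (n + 1))) := by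
        rw [map_sub, map_mul, aeval_X]
        ring
      rw [e]
      refine norm_sub_le_of ?_ ?_
      · rw [norm_mul]
        calc _ ≤ ‖t‖ * ‖t‖⁻¹ := mul_le_mul_of_nonneg_left (ha n) ht0.le
          _ = 1 := mul_inv_cancel₀ ht0.ne'
      · exact (ha _).trans (inv_le_one_of_one_le₀ ht.le)
    have h4 : (a (n + 1) - X * a n).natDegree = 0 := by
      by_contra hne
      have h5 : a (n + 1) - X * a n ≠ 0 := by
        intro h0
        rw [h0] at hne
        simp at hne
      rw [norm_aeval ht h5] at h3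
      have := one_lt_pow₀ ht hne
      linarith
    obtain ⟨c, hc⟩ := Polynomial.natDegree_eq_zero.1 h4
    exact ⟨c, by rw [hc]; ring⟩
  choose c hc using h2
  have h3 : ∀ n, aeval t (a n) = t ^ n * (aeval t (a 0) +
      t⁻¹ * ∑ i ∈ Finset.range n, algebraMap Fq C (c i) * t⁻¹ ^ i) := by
    intro n
    induction n with
    | zero => simp
    | succ n ih =>
      rw [hc n, map_add, map_mul, aeval_X, ih, Finset.sum_range_succ, Polynomial.aeval_C]
      have : t ^ n * t⁻¹ ^ n = 1 := by rw [← mul_pow, mul_inv_cancel₀ htne, one_pow]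
      have h8 : t * t⁻¹ = 1 := mul_inv_cancel₀ htne
      linear_combination (-algebraMap Fq C (c n)) * this -
        (algebraMap Fq C (c n)) * (t ^ n * t⁻¹ ^ n) * h8
  set f : PowerSeries Fq := PowerSeries.mk c with hf
  refine ⟨emb Fq (a 0) + HahnSeries.single (1 : ℤ) (1 : Fq) * HahnSeries.ofPowerSeries ℤ Fq f, ?_⟩
  rw [map_add, map_mul, io_emb, io_single_one, io_coe]
  have h4 : Tendsto (fun n : ℕ => aeval t (a 0) + t⁻¹ * ∑ i ∈ Finset.range n,
      algebraMap Fq C (c i) * t⁻¹ ^ i) atTop (𝓝 (aeval t (a 0) + t⁻¹ * evf t f)) := by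
    have := (summable_term (Fq := Fq) ht f).hasSum.tendsto_sum_nat
    unfold evf
    simp only [hf, PowerSeries.coeff_mk] at this ⊢
    exact tendsto_const_nhds.add (tendsto_const_nhds.mul this)
  have h5 : Tendsto (fun n : ℕ => aeval t (a 0) + t⁻¹ * ∑ i ∈ Finset.range n,
      algebraMap Fq C (c i) * t⁻¹ ^ i) atTop (𝓝 y) := by
    rw [tendsto_iff_norm_sub_tendsto_zero]
    have h6 : ∀ n : ℕ, ‖(aeval t (a 0) + t⁻¹ * ∑ i ∈ Finset.range n,
      algebraMap Fq C (c i) * t⁻¹ ^ i) - y‖ ≤ ‖t⁻¹‖ ^ n * ‖t‖⁻¹ := by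
      intro n
      have h7 := ha n
      have e : (aeval t (a 0) + t⁻¹ * ∑ i ∈ Finset.range n,
        algebraMap Fq C (c i) * t⁻¹ ^ i) - y = -(t⁻¹ ^ n * (t ^ n * y - aeval t (a n))) := by
        rw [h3 n]
        have : t⁻¹ ^ n * t ^ n = 1 := by rw [← mul_pow, inv_mul_cancel₀ htne, one_pow]
        linear_combination (y - (aeval t (a 0) + t⁻¹ * ∑ i ∈ Finset.range n,
          algebraMap Fq C (c i) * t⁻¹ ^ i)) * this
      rw [e, norm_neg, norm_mul, norm_pow]
      exact mul_le_mul_of_nonneg_left h7 (by positivity)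
    refine squeeze_zero (fun _ => norm_nonneg _) h6 ?_
    have := (tendsto_pow_atTop_nhds_zero_of_lt_one (norm_nonneg _) (inv_lt ht)).mul_const (‖t‖⁻¹)
    rwa [zero_mul] at this
  exact tendsto_nhds_unique h4 h5

end

theorem t_EMB : Pool.Agent.J4H98.HP.S_EMB := by
  intro Fq C _ _ _ _ _ _ _ t ht
  obtain ⟨s, hs⟩ := IsAlgClosed.exists_pow_nat_eq t (n := 2) (by norm_num)
  refine ⟨s, io ht, ht, hs, io_emb ht, io_norm ht, ?_⟩
  intro y
  constructor
  · exact io_surj ht
  · rintro ⟨x, rfl⟩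
    exact io_mem ht x

end Pool.Agent.J4H84.HP
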