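import Pool.Agent.J4H84.HP.Emb
import Pool.Agent.TH828.DM.Conv

/-!
# Project HP, job K5, part 1: the `F_q`-linear polynomials `∏_{deg a < N} (z - a)`
-/

open Polynomial Filter Topology

set_option linter.unusedSectionVars false

namespace Pool.Agent.J4H84.HP

open Pool.Agent.TH828.DM (pt)

section
variable {Fq : Type} [Field Fq] [Fintype Fq]

lemma prod_X_sub_C_eq : ∏ c : Fq, ((X : Fq[X]) - Polynomial.C c) = X ^ Fintype.card Fq - X := by
  have h1 : (X ^ Fintype.card Fq - X : Fq[X]).Monic := by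
    apply Polynomial.monic_X_pow_sub
    rw [Polynomial.degree_X]
    exact_mod_cast Fintype.one_lt_card
  have h2 := FiniteField.roots_X_pow_card_sub_X Fq
  have h3 := Polynomial.prod_multiset_X_sub_C_of_monic_of_roots_card_eq h1 (by
    rw [h2, FiniteField.X_pow_card_sub_X_natDegree_eq Fq Fintype.one_lt_card]
    simp)
  rw [h2] at h3
  exact h3

variable {C : Type} [Field C] [Algebra Fq C]

lemma prod_sub_algebraMap (x : C) :
    ∏ c : Fq, (x - algebraMap Fq C c) = x ^ Fintype.card Fq - x := by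
  have h := congrArg (aeval x) (prod_X_sub_C_eq (Fq := Fq))
  rw [map_prod] at h
  simpa using h

lemma prod_sub_mul (x y : C) :
    ∏ c : Fq, (x - algebraMap Fq C c * y) =
      x ^ Fintype.card Fq - y ^ (Fintype.card Fq - 1) * x := by
  have hq : 1 < Fintype.card Fq := Fintype.one_lt_card
  by_cases hy : y = 0
  · subst hy
    rw [zero_pow (by omega), zero_mul, sub_zero]
    simp
  · have h1 : ∀ c : Fq, x - algebraMap Fq C c * y = y * (x / y - algebraMap Fq C c) := by
      intro c
      field_simp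
    simp_rw [h1]
    rw [Finset.prod_mul_distrib, prod_sub_algebraMap, Finset.prod_const, Finset.card_univ, mul_sub,
      div_pow, mul_div_cancel₀ _ (pow_ne_zero _ hy)]
    congr 1
    obtain ⟨m, hm⟩ : ∃ m, Fintype.card Fq = m + 1 := ⟨Fintype.card Fq - 1, by omega⟩
    rw [hm, Nat.add_sub_cancel, pow_succ]
    field_simp

/-- the polynomial with zeros the elements of degree `< N` -/
noncomputable def EN (Fq : Type) [Field Fq] [Fintype Fq] {C : Type} [Field C] [Algebra Fq C]
    (t : C) (N : ℕ) (z : C) : C :=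
  ∏ b : Fin N → Fq, (z - ∑ i, algebraMap Fq C (b i) * t ^ (i : ℕ))

lemma EN_zero (t z : C) : EN Fq t 0 z = z := by
  simp [EN]

lemma EN_succ' (t : C) (N : ℕ) (z : C) :
    EN Fq t (N + 1) z = ∏ c : Fq, EN Fq t N (z - algebraMap Fq C c * t ^ N) := by
  unfold EN
  rw [← Fintype.prod_prod_type']
  refine (Fintype.prod_equiv (Fin.snocEquiv (fun _ => Fq)) _ _ ?_).symm
  rintro ⟨c, b⟩
  simp only [Fin.snocEquiv, Equiv.coe_fn_mk]
  rw [Fin.sum_univ_castSucc]
  simp only [Fin.snoc_castSucc, Fin.snoc_last, Fin.val_castSucc, Fin.val_last]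
  ring

lemma EN_lin (t : C) (N : ℕ) : (∀ z z' : C, EN Fq t N (z + z') = EN Fq t N z + EN Fq t N z') ∧
    (∀ (c : Fq) (z : C), EN Fq t N (algebraMap Fq C c * z) = algebraMap Fq C c * EN Fq t N z) ∧
    (∀ z : C, EN Fq t (N + 1) z = EN Fq t N z ^ Fintype.card Fq -
      EN Fq t N (t ^ N) ^ (Fintype.card Fq - 1) * EN Fq t N z) := by
  have key : ∀ N, (∀ z z' : C, EN Fq t N (z + z') = EN Fq t N z + EN Fq t N z') →
    (∀ (c : Fq) (z : C), EN Fq t N (algebraMap Fq C c * z) = algebraMap Fq C c * EN Fq t N z) →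
    (∀ z : C, EN Fq t (N + 1) z = EN Fq t N z ^ Fintype.card Fq -
      EN Fq t N (t ^ N) ^ (Fintype.card Fq - 1) * EN Fq t N z) := by
    intro N h1 h2 z
    rw [EN_succ', ← prod_sub_mul]
    apply Finset.prod_congr rfl
    intro c _
    have e : z - algebraMap Fq C c * t ^ N = z + algebraMap Fq C (-c) * t ^ N := by
      rw [map_neg]; ring
    rw [e, h1, h2, map_neg]
    ring
  induction N with
  | zero =>
    have h1 : ∀ z z' : C, EN Fq t 0 (z + z') = EN Fq t 0 z + EN Fq t 0 z' := by
      intro z z'; simp only [EN_zero]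
    have h2 : ∀ (c : Fq) (z : C), EN Fq t 0 (algebraMap Fq C c * z) =
        algebraMap Fq C c * EN Fq t 0 z := by
      intro c z; simp only [EN_zero]
    exact ⟨h1, h2, key 0 h1 h2⟩
  | succ N ih =>
    obtain ⟨h1, h2, h3⟩ := ih
    have h4 : ∀ z z' : C, EN Fq t (N + 1) (z + z') = EN Fq t (N + 1) z + EN Fq t (N + 1) z' := by
      intro z z'
      have hF : ∀ a b : C, (a + b) ^ Fintype.card Fq = a ^ Fintype.card Fq + b ^ Fintype.card Fq := by
        intro a b
        have := map_add (FiniteField.frobeniusAlgHom Fq C) a b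
        simpa using this
      rw [h3, h3, h3, h1, hF]
      ring
    have h5 : ∀ (c : Fq) (z : C), EN Fq t (N + 1) (algebraMap Fq C c * z) =
        algebraMap Fq C c * EN Fq t (N + 1) z := by
      intro c z
      rw [h3, h3, h2, mul_pow, ← map_pow, FiniteField.pow_card]
      ring
    exact ⟨h4, h5, key (N + 1) h4 h5⟩

lemma EN_add (t : C) (N : ℕ) (z z' : C) : EN Fq t N (z + z') = EN Fq t N z + EN Fq t N z' :=
  (EN_lin t N).1 z z'

lemma EN_smul (t : C) (N : ℕ) (c : Fq) (z : C) :
    EN Fq t N (algebraMap Fq C c * z) = algebraMap Fq C c * EN Fq t N z := (EN_lin t N).2.1 c z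

end

end Pool.Agent.J4H84.HP
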