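import Pool.Agent.J4H84.HP.ExpA1

/-!
# Project HP, job K5, part 2: the exponential function of the lattice `A`
-/

open Polynomial Filter Topology

set_option linter.unusedSectionVars false

namespace Pool.Agent.J4H84.HP

open Pool.Agent.J4H98.HP
open Pool.Agent.TH828.DM (pt Omega expA finite_natDegree_le norm_prod_sub_one_le multipliable_expA
  norm_aeval one_le_norm_aeval norm_aeval_le aeval_mem_Kinf norm_add_le_of norm_sub_le_of
  norm_add_of_lt)

section
variable {Fq C : Type} [Field Fq] [Fintype Fq] [NontriviallyNormedField C]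
  [IsUltrametricDist C] [CompleteSpace C] [Algebra Fq C] {t : C}

/-- the nonzero polynomials of degree `≤ d` -/
noncomputable def SN (Fq : Type) [Field Fq] [Fintype Fq] (d : ℕ) : Finset {a : Fq[X] // a ≠ 0} :=
  (finite_natDegree_le d).toFinset

lemma mem_SN {d : ℕ} {a : {a : Fq[X] // a ≠ 0}} : a ∈ SN Fq d ↔ a.1.natDegree ≤ d := by
  unfold SN
  rw [Set.Finite.mem_toFinset]
  exact Iff.rfl

lemma SN_mono {d e : ℕ} (h : d ≤ e) : SN Fq d ⊆ SN Fq e := by
  intro a ha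
  rw [mem_SN] at ha ⊢
  omega

/-- the partial products -/
noncomputable def PN (Fq : Type) [Field Fq] [Fintype Fq] {C : Type} [NontriviallyNormedField C]
    [Algebra Fq C] (t : C) (d : ℕ) (z : C) : C :=
  z * ∏ a ∈ SN Fq d, (1 - z / aeval t a.1)

lemma tendsto_SN : Tendsto (fun d => SN Fq d) atTop atTop := by
  apply tendsto_atTop_finset_of_monotone (fun d e h => SN_mono h)
  intro a
  exact ⟨a.1.natDegree, mem_SN.2 le_rfl⟩

lemma tendsto_PN (ht : 1 < ‖t‖) (z : C) :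
    Tendsto (fun d => PN Fq t d z) atTop (𝓝 (expA Fq t z)) := by
  unfold PN expA
  exact ((multipliable_expA (F := Fq) ht z).hasProd.comp tendsto_SN).const_mul z

lemma factor_sub_one (ht : 1 < ‖t‖) {z : C} {d : ℕ} {a : {a : Fq[X] // a ≠ 0}}
    (ha : d < a.1.natDegree) : ‖(1 - z / aeval t a.1) - 1‖ ≤ ‖z‖ / ‖t‖ ^ (d + 1) := by
  have e : (1 - z / aeval t a.1) - 1 = -(z / aeval t a.1) := by ring
  have ht0 : 0 < ‖t‖ := by linarith
  rw [e, norm_neg, norm_div, norm_aeval ht a.2]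
  exact div_le_div_of_nonneg_left (norm_nonneg _) (by positivity)
    (pow_le_pow_right₀ ht.le (by omega))

lemma PN_sub_le (ht : 1 < ‖t‖) {z : C} {d M : ℕ} (hz : ‖z‖ ≤ ‖t‖ ^ (d + 1)) (hdM : d ≤ M) :
    ‖PN Fq t M z - PN Fq t d z‖ ≤ ‖PN Fq t d z‖ * (‖z‖ / ‖t‖ ^ (d + 1)) := by
  classical
  have ht0 : 0 < ‖t‖ := by linarith
  have e : PN Fq t M z - PN Fq t d z =
      PN Fq t d z * (∏ a ∈ SN Fq M \ SN Fq d, (1 - z / aeval t a.1) - 1) := by
    unfold PN
    rw [← Finset.prod_sdiff (SN_mono hdM)]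
    ring
  rw [e, norm_mul]
  apply mul_le_mul_of_nonneg_left _ (norm_nonneg _)
  apply norm_prod_sub_one_le (by positivity) (div_le_one_of_le₀ hz (by positivity))
  intro a ha
  rw [Finset.mem_sdiff, mem_SN, mem_SN] at ha
  exact factor_sub_one ht (by omega)

lemma expA_sub_le (ht : 1 < ‖t‖) {z : C} {d : ℕ} (hz : ‖z‖ ≤ ‖t‖ ^ (d + 1)) :
    ‖expA Fq t z - PN Fq t d z‖ ≤ ‖PN Fq t d z‖ * (‖z‖ / ‖t‖ ^ (d + 1)) := by
  have h1 : Tendsto (fun M => ‖PN Fq t M z - PN Fq t d z‖) atTop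
      (𝓝 ‖expA Fq t z - PN Fq t d z‖) := ((tendsto_PN ht z).sub_const _).norm
  refine le_of_tendsto h1 ?_
  filter_upwards [eventually_ge_atTop d] with M hM
  exact PN_sub_le ht hz hM

lemma norm_expA_eq (ht : 1 < ‖t‖) {z : C} {d : ℕ} (hz : ‖z‖ < ‖t‖ ^ (d + 1)) :
    ‖expA Fq t z‖ = ‖PN Fq t d z‖ := by
  have ht0 : 0 < ‖t‖ := by linarith
  have h1 := expA_sub_le (Fq := Fq) ht hz.le
  by_cases h0 : PN Fq t d z = 0
  · rw [h0, norm_zero, zero_mul] at h1
    rw [h0]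
    have := norm_le_zero_iff.1 h1
    rw [sub_zero] at this
    rw [this]
  · have h2 : ‖expA Fq t z - PN Fq t d z‖ < ‖PN Fq t d z‖ := by
      refine h1.trans_lt ?_
      have h3 : ‖z‖ / ‖t‖ ^ (d + 1) < 1 := (div_lt_one (by positivity)).2 hz
      have h4 : 0 < ‖PN Fq t d z‖ := norm_pos_iff.2 h0
      nlinarith
    have e : expA Fq t z = (expA Fq t z - PN Fq t d z) + PN Fq t d z := by ring
    rw [e, norm_add_of_lt h2]

/-- the constant -/
noncomputable def kap (Fq : Type) [Field Fq] [Fintype Fq] {C : Type} [NontriviallyNormedField C]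
    [Algebra Fq C] (t : C) (d : ℕ) : C := ∏ a ∈ SN Fq d, (-aeval t a.1)

lemma aeval_ne_zero (ht : 1 < ‖t‖) (a : {a : Fq[X] // a ≠ 0}) : aeval t a.1 ≠ 0 := by
  intro h
  have := one_le_norm_aeval ht a.2
  rw [h, norm_zero] at this
  linarith

lemma kap_ne_zero (ht : 1 < ‖t‖) (d : ℕ) : kap Fq t d ≠ 0 :=
  Finset.prod_ne_zero_iff.2 fun a _ => neg_ne_zero.2 (aeval_ne_zero ht a)

lemma EN_eq_pt (t : C) (N : ℕ) (z : C) : EN Fq t N z = ∏ b : Fin N → Fq, (z - pt t b) := rfl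

lemma prod_erase_zero (t : C) (d : ℕ) (g : C → C) [DecidableEq (Fin (d + 1) → Fq)] :
    ∏ b ∈ (Finset.univ : Finset (Fin (d + 1) → Fq)).erase 0, g (pt t b) =
      ∏ a ∈ SN Fq d, g (aeval t a.1) := by
  symm
  refine Finset.prod_bij (fun a _ => fun i : Fin (d + 1) => a.1.coeff i) ?_ ?_ ?_ ?_
  · intro a ha
    rw [mem_SN] at ha
    rw [Finset.mem_erase]
    refine ⟨fun h => a.2 ?_, Finset.mem_univ _⟩
    ext i
    rw [Polynomial.coeff_zero]
    by_cases hi : i ≤ d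
    · exact congrFun h ⟨i, by omega⟩
    · exact Polynomial.coeff_eq_zero_of_natDegree_lt (by omega)
  · intro a ha b hb hab
    rw [mem_SN] at ha hb
    apply Subtype.ext
    ext i
    by_cases hi : i ≤ d
    · exact congrFun hab ⟨i, by omega⟩
    · rw [Polynomial.coeff_eq_zero_of_natDegree_lt (by omega),
        Polynomial.coeff_eq_zero_of_natDegree_lt (by omega)]
  · intro b hb
    rw [Finset.mem_erase] at hb
    have hc : ∀ i : Fin (d + 1), (∑ j : Fin (d + 1), monomial (j : ℕ) (b j) : Fq[X]).coeff i = b i := by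
      intro i
      rw [Polynomial.finsetSum_coeff, Finset.sum_eq_single i]
      · simp
      · intro j _ hj
        rw [Polynomial.coeff_monomial, if_neg]
        intro h
        exact hj (Fin.ext h)
      · intro h; exact absurd (Finset.mem_univ _) h
    refine ⟨⟨∑ j : Fin (d + 1), monomial (j : ℕ) (b j), ?_⟩, ?_, ?_⟩
    · intro h
      apply hb.1
      funext i
      rw [← hc i, h, Polynomial.coeff_zero, Pi.zero_apply]
    · rw [mem_SN]
      refine Polynomial.natDegree_sum_le_of_forall_le (Finset.univ : Finset (Fin (d + 1)))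
        (fun j => (monomial (j : ℕ) (b j) : Fq[X])) ?_
      intro j _
      exact (Polynomial.natDegree_monomial_le (b j)).trans (by omega)
    · funext i
      exact hc i
  · intro a ha
    rw [mem_SN] at ha
    congr 1
    rw [Polynomial.aeval_eq_sum_range' (Nat.lt_succ_of_le ha), Finset.sum_range]
    unfold pt
    apply Finset.sum_congr rfl
    intro i _
    rw [Algebra.smul_def]

lemma EN_eq (t : C) (d : ℕ) (z : C) :
    EN Fq t (d + 1) z = z * ∏ a ∈ SN Fq d, (z - aeval t a.1) := by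
  classical
  rw [EN_eq_pt, ← Finset.mul_prod_erase _ _ (Finset.mem_univ (0 : Fin (d + 1) → Fq)),
    Pool.Agent.TH828.DM.pt_zero, sub_zero, prod_erase_zero t d (fun x => z - x)]

lemma PN_eq (ht : 1 < ‖t‖) (d : ℕ) (z : C) :
    PN Fq t d z = (kap Fq t d)⁻¹ * EN Fq t (d + 1) z := by
  rw [EN_eq, eq_inv_mul_iff_mul_eq₀ (kap_ne_zero ht d)]
  unfold PN kap
  have e : (∏ a ∈ SN Fq d, (-aeval t a.1)) * (z * ∏ a ∈ SN Fq d, (1 - z / aeval t a.1)) =
      z * ((∏ a ∈ SN Fq d, (-aeval t a.1)) * ∏ a ∈ SN Fq d, (1 - z / aeval t a.1)) := by ring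
  rw [e, ← Finset.prod_mul_distrib]
  congr 1
  apply Finset.prod_congr rfl
  intro a _
  have := aeval_ne_zero ht a
  field_simp
  ring

lemma PN_add (ht : 1 < ‖t‖) (d : ℕ) (z z' : C) :
    PN Fq t d (z + z') = PN Fq t d z + PN Fq t d z' := by
  rw [PN_eq ht, PN_eq ht, PN_eq ht, EN_add]
  ring

lemma PN_smul (ht : 1 < ‖t‖) (d : ℕ) (c : Fq) (z : C) :
    PN Fq t d (algebraMap Fq C c * z) = algebraMap Fq C c * PN Fq t d z := by
  rw [PN_eq ht, PN_eq ht, EN_smul]
  ring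

lemma expA_add (ht : 1 < ‖t‖) (z z' : C) : expA Fq t (z + z') = expA Fq t z + expA Fq t z' := by
  have h1 := tendsto_PN (Fq := Fq) ht (z + z')
  have h2 := (tendsto_PN (Fq := Fq) ht z).add (tendsto_PN (Fq := Fq) ht z')
  refine tendsto_nhds_unique h1 (h2.congr fun d => ?_)
  rw [PN_add ht]

lemma expA_smul (ht : 1 < ‖t‖) (c : Fq) (z : C) :
    expA Fq t (algebraMap Fq C c * z) = algebraMap Fq C c * expA Fq t z := by
  have h1 := tendsto_PN (Fq := Fq) ht (algebraMap Fq C c * z)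
  have h2 := (tendsto_PN (Fq := Fq) ht z).const_mul (algebraMap Fq C c)
  refine tendsto_nhds_unique h1 (h2.congr fun d => ?_)
  rw [PN_smul ht]

lemma expA_zero (t : C) : expA Fq t 0 = 0 := by
  unfold expA
  rw [zero_mul]

lemma expA_sub (ht : 1 < ‖t‖) (z z' : C) : expA Fq t (z - z') = expA Fq t z - expA Fq t z' := by
  have h := expA_add (Fq := Fq) ht (z - z') z'
  rw [sub_add_cancel] at h
  rw [h]
  ring

lemma expA_aeval (ht : 1 < ‖t‖) (a : Fq[X]) : expA Fq t (aeval t a) = 0 := by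
  by_cases ha : a = 0
  · rw [ha, map_zero, expA_zero]
  · have h1 := tendsto_PN (Fq := Fq) ht (aeval t a)
    refine tendsto_nhds_unique h1 (tendsto_const_nhds.congr' ?_)
    filter_upwards [eventually_ge_atTop a.natDegree] with d hd
    symm
    unfold PN
    rw [Finset.prod_eq_zero (i := ⟨a, ha⟩) (mem_SN.2 hd), mul_zero]
    rw [div_self (aeval_ne_zero ht ⟨a, ha⟩), sub_self]

lemma expA_small (ht : 1 < ‖t‖) (z : C) (hz : ‖z‖ < 1) : ‖expA Fq t z‖ = ‖z‖ := by
  have ht0 : 0 < ‖t‖ := by linarith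
  rw [norm_expA_eq (d := 0) ht (by rw [zero_add, pow_one]; linarith)]
  unfold PN
  rw [norm_mul, norm_prod, Finset.prod_eq_one, mul_one]
  intro a _
  have h1 : ‖z / aeval t a.1‖ < 1 := by
    rw [norm_div]
    exact (div_le_self (norm_nonneg _) (one_le_norm_aeval ht a.2)).trans_lt hz
  have e : 1 - z / aeval t a.1 = -(z / aeval t a.1) + 1 := by ring
  rw [e, norm_add_of_lt (by rw [norm_neg, norm_one]; exact h1), norm_one]

lemma norm_PN_le (ht : 1 < ‖t‖) {z : C} {R : ℝ} (hR : 1 ≤ R) (hz : ‖z‖ ≤ R) (d : ℕ) :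
    ‖PN Fq t d z‖ ≤ R ^ (SN Fq d).card * ‖z‖ := by
  unfold PN
  rw [norm_mul, norm_prod, mul_comm]
  apply mul_le_mul_of_nonneg_right _ (norm_nonneg _)
  rw [← Finset.prod_const]
  apply Finset.prod_le_prod (fun _ _ => norm_nonneg _)
  intro a _
  refine norm_sub_le_of (by rw [norm_one]; exact hR) ?_
  rw [norm_div]
  exact (div_le_self (norm_nonneg _) (one_le_norm_aeval ht a.2)).trans hz

lemma expA_bound (ht : 1 < ‖t‖) (R : ℝ) : ∃ L : ℝ, 0 ≤ L ∧ ∃ d : ℕ, ∀ z : C, ‖z‖ ≤ R →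
    ‖z‖ < ‖t‖ ^ (d + 1) ∧ ‖PN Fq t d z‖ ≤ L * ‖z‖ ∧ ‖expA Fq t z‖ ≤ L * ‖z‖ := by
  obtain ⟨d, hd⟩ := pow_unbounded_of_one_lt R ht
  have hR' : 1 ≤ max R 1 := le_max_right _ _
  refine ⟨(max R 1) ^ (SN Fq d).card, by positivity, d, fun z hz => ?_⟩
  have h1 : ‖z‖ < ‖t‖ ^ (d + 1) :=
    (hz.trans_lt hd).trans_le (pow_le_pow_right₀ ht.le (by omega))
  have h2 := norm_PN_le (Fq := Fq) ht hR' (hz.trans (le_max_left _ _)) d
  exact ⟨h1, h2, by rw [norm_expA_eq ht h1]; exact h2⟩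

lemma expA_lip (ht : 1 < ‖t‖) (R : ℝ) : ∃ L : ℝ, ∀ z z' : C, ‖z‖ ≤ R → ‖z'‖ ≤ R →
    ‖expA Fq t z - expA Fq t z'‖ ≤ L * ‖z - z'‖ := by
  obtain ⟨L, _, d, h⟩ := expA_bound (Fq := Fq) ht R
  refine ⟨L, fun z z' hz hz' => ?_⟩
  rw [← expA_sub ht]
  exact (h _ (norm_sub_le_of hz hz')).2.2

/-- the polynomial with values `PN` -/
noncomputable def PP (Fq : Type) [Field Fq] [Fintype Fq] {C : Type} [NontriviallyNormedField C]
    [Algebra Fq C] (t : C) (d : ℕ) : C[X] :=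
  X * ∏ a ∈ SN Fq d, (1 - Polynomial.C (aeval t a.1)⁻¹ * X)

lemma eval_PP (t : C) (d : ℕ) (z : C) : (PP Fq t d).eval z = PN Fq t d z := by
  unfold PP PN
  rw [Polynomial.eval_mul, Polynomial.eval_X, Polynomial.eval_prod]
  congr 1
  apply Finset.prod_congr rfl
  intro a _
  rw [Polynomial.eval_sub, Polynomial.eval_one, Polynomial.eval_mul, Polynomial.eval_C,
    Polynomial.eval_X, div_eq_inv_mul]

lemma expA_approx (ht : 1 < ‖t‖) (R ε : ℝ) (hε : 0 < ε) :
    ∃ P : C[X], ∀ z : C, ‖z‖ ≤ R → ‖expA Fq t z - P.eval z‖ ≤ ε := by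
  obtain ⟨L, hL, d, h⟩ := expA_bound (Fq := Fq) ht R
  have ht0 : 0 < ‖t‖ := by linarith
  set R1 := max R 0 with hR1
  have hR10 : 0 ≤ R1 := le_max_right _ _
  obtain ⟨n, hn⟩ := pow_unbounded_of_one_lt (L * R1 * R1 / ε) ht
  set N := max d n with hN
  refine ⟨PP Fq t N, fun z hz => ?_⟩
  rw [eval_PP]
  obtain ⟨h1, h2, h3⟩ := h z hz
  have hz' : ‖z‖ ≤ R1 := hz.trans (le_max_left _ _)
  have h4 : ‖z‖ < ‖t‖ ^ (N + 1) :=
    h1.trans_le (pow_le_pow_right₀ ht.le (by have := le_max_left d n; omega))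
  have h5 : ‖PN Fq t N z‖ ≤ L * R1 := by
    rw [← norm_expA_eq ht h4]
    exact h3.trans (mul_le_mul_of_nonneg_left hz' hL)
  refine (expA_sub_le ht h4.le).trans ?_
  have h6 : L * R1 * R1 / ε ≤ ‖t‖ ^ (N + 1) := by
    exact hn.le.trans (pow_le_pow_right₀ ht.le (by have := le_max_right d n; omega))
  have h7 : 0 < ‖t‖ ^ (N + 1) := by positivity
  calc ‖PN Fq t N z‖ * (‖z‖ / ‖t‖ ^ (N + 1)) ≤ (L * R1) * (R1 / ‖t‖ ^ (N + 1)) := by
        apply mul_le_mul h5 (div_le_div_of_nonneg_right hz' h7.le) (by positivity) (by positivity)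
    _ = L * R1 * R1 / ‖t‖ ^ (N + 1) := by ring
    _ ≤ ε := by
      rw [div_le_iff₀ h7]
      rw [div_le_iff₀ hε] at h6
      linarith

lemma far_lower (ht : 1 < ‖t‖) (z : C) (ρ : ℝ) (h : Far Fq t ρ z) : ρ ≤ ‖expA Fq t z‖ := by
  have ht0 : 0 < ‖t‖ := by linarith
  obtain ⟨d, hd⟩ := pow_unbounded_of_one_lt ‖z‖ ht
  have hd' : ‖z‖ < ‖t‖ ^ (d + 1) := hd.trans_le (pow_le_pow_right₀ ht.le (by omega))
  obtain ⟨b0, hb0⟩ := Finite.exists_min (fun b : Fin (d + 1) → Fq => ‖z - pt t b‖)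
  set z' := z - pt t b0 with hz'
  have h1 : ‖z'‖ ≤ ‖z‖ := by
    have := hb0 0
    rwa [Pool.Agent.TH828.DM.pt_zero, sub_zero] at this
  have h2 : expA Fq t z' = expA Fq t z := by
    rw [hz', expA_sub ht, Pool.Agent.TH828.DM.pt_eq_aeval, expA_aeval ht, sub_zero]
  rw [← h2, norm_expA_eq ht (h1.trans_lt hd')]
  have h3 : ρ ≤ ‖z'‖ := by
    apply h
    rw [Pool.Agent.TH828.DM.pt_eq_aeval]
    exact aeval_mem_Kinf t _
  refine h3.trans ?_
  unfold PN
  rw [norm_mul, norm_prod]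
  apply le_mul_of_one_le_right (norm_nonneg _)
  rw [← Finset.prod_const_one (s := SN Fq d)]
  apply Finset.prod_le_prod (fun _ _ => zero_le_one)
  intro a ha
  rw [mem_SN] at ha
  have ha0 := aeval_ne_zero ht a
  have e : 1 - z' / aeval t a.1 = (aeval t a.1 - z') / aeval t a.1 := by field_simp
  rw [e, norm_div, one_le_div (norm_pos_iff.2 ha0)]
  by_contra hlt
  push Not at hlt
  have h4 : ‖z'‖ = ‖aeval t a.1‖ := by
    have e2 : z' = -(aeval t a.1 - z') + aeval t a.1 := by ring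
    conv_lhs => rw [e2]
    rw [norm_add_of_lt (by rwa [norm_neg])]
  obtain ⟨b1, hb1⟩ := Pool.Agent.TH828.DM.exists_pt (F := Fq) t (n := d + 1) (a := a.1) (by omega)
  have h5 := hb0 (b0 + b1)
  have e3 : pt t (b0 + b1) = pt t b0 + pt t b1 := by
    have := Pool.Agent.TH828.DM.pt_sub t (b0 + b1) b1
    rw [add_sub_cancel_right] at this
    rw [← this]
    ring
  have e4 : z - pt t (b0 + b1) = -(aeval t a.1 - z') := by
    rw [e3, hb1, hz']
    ring
  rw [e4, norm_neg] at h5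
  have h6 : ‖z'‖ ≤ ‖aeval t a.1 - z'‖ := h5
  linarith

lemma expA_ne_zero (ht : 1 < ‖t‖) {z : C} (hz : z ∈ Omega Fq t) : expA Fq t z ≠ 0 := by
  have hc : IsClosed ((Pool.Agent.TH828.DM.Kinf Fq t : Subfield C) : Set C) :=
    Subfield.isClosed_topologicalClosure _
  have hz' : z ∈ ((Pool.Agent.TH828.DM.Kinf Fq t : Subfield C) : Set C)ᶜ := hz
  obtain ⟨r, hr, hball⟩ := Metric.isOpen_iff.1 hc.isOpen_compl z hz'
  have hfar : Far Fq t r z := by
    intro x hx
    by_contra hlt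
    push Not at hlt
    have : x ∈ Metric.ball z r := by
      rw [Metric.mem_ball, dist_comm, dist_eq_norm]
      exact hlt
    exact hball this hx
  have := far_lower ht z r hfar
  rw [← norm_pos_iff]
  linarith

/-- the polynomial with values `EN` -/
noncomputable def EP (Fq : Type) [Field Fq] [Fintype Fq] {C : Type} [NontriviallyNormedField C]
    [Algebra Fq C] (t : C) (N : ℕ) : C[X] := ∏ b : Fin N → Fq, (X - Polynomial.C (pt t b))

lemma eval_EP (t : C) (N : ℕ) (z : C) : (EP Fq t N).eval z = EN Fq t N z := by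
  unfold EP
  rw [Polynomial.eval_prod, EN_eq_pt]
  apply Finset.prod_congr rfl
  intro b _
  simp

lemma deriv_const (t : C) (N : ℕ) (z : C) :
    (derivative (EP Fq t N)).eval z = (derivative (EP Fq t N)).eval 0 := by
  have h1 : (EP Fq t N).comp (X + Polynomial.C z) = EP Fq t N + Polynomial.C (EN Fq t N z) := by
    apply Polynomial.funext
    intro y
    rw [Polynomial.eval_comp, Polynomial.eval_add, Polynomial.eval_add, Polynomial.eval_X,
      Polynomial.eval_C, Polynomial.eval_C, eval_EP, eval_EP, EN_add]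
  have h2 := congrArg (fun P : C[X] => (derivative P).eval 0) h1
  simp only [Polynomial.derivative_comp, Polynomial.derivative_add, Polynomial.derivative_X,
    Polynomial.derivative_C, add_zero, one_mul, Polynomial.eval_comp, Polynomial.eval_add,
    Polynomial.eval_X, Polynomial.eval_C, zero_add] at h2
  exact h2

lemma deriv_eval (t : C) (N : ℕ) (z : C) [DecidableEq (Fin N → Fq)] :
    (derivative (EP Fq t N)).eval z =
      ∑ b : Fin N → Fq, ∏ b' ∈ Finset.univ.erase b, (z - pt t b') := by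
  unfold EP
  rw [Polynomial.derivative_prod_finset, Polynomial.eval_finsetSum]
  apply Finset.sum_congr rfl
  intro b _
  rw [Polynomial.derivative_X_sub_C, mul_one, Polynomial.eval_prod]
  apply Finset.prod_congr rfl
  intro b' _
  simp

lemma sum_inv (ht : 1 < ‖t‖) (d : ℕ) {w : C} (hw : w ∈ Omega Fq t) :
    ∑ b : Fin (d + 1) → Fq, (w - pt t b)⁻¹ = (PN Fq t d w)⁻¹ := by
  classical
  have hne : ∀ b : Fin (d + 1) → Fq, w - pt t b ≠ 0 := by
    intro b h
    apply hw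
    rw [sub_eq_zero.1 h, Pool.Agent.TH828.DM.pt_eq_aeval]
    exact aeval_mem_Kinf t _
  have h1 := deriv_const (Fq := Fq) t (d + 1) w
  rw [deriv_eval, deriv_eval] at h1
  have h2 : ∑ b : Fin (d + 1) → Fq, ∏ b' ∈ Finset.univ.erase b, (w - pt t b') =
      EN Fq t (d + 1) w * ∑ b : Fin (d + 1) → Fq, (w - pt t b)⁻¹ := by
    rw [Finset.mul_sum]
    apply Finset.sum_congr rfl
    intro b _
    rw [EN_eq_pt, ← Finset.mul_prod_erase _ _ (Finset.mem_univ b)]
    have := hne b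
    field_simp
  have h3 : ∑ b : Fin (d + 1) → Fq, ∏ b' ∈ Finset.univ.erase b, ((0 : C) - pt t b') =
      kap Fq t d := by
    rw [Finset.sum_eq_single 0]
    · rw [prod_erase_zero t d (fun x => (0 : C) - x)]
      unfold kap
      apply Finset.prod_congr rfl
      intro a _
      rw [zero_sub]
    · intro b _ hb
      apply Finset.prod_eq_zero (i := (0 : Fin (d + 1) → Fq))
      · rw [Finset.mem_erase]
        exact ⟨fun h => hb h.symm, Finset.mem_univ _⟩
      · rw [Pool.Agent.TH828.DM.pt_zero, sub_zero]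
    · intro h; exact absurd (Finset.mem_univ _) h
  rw [h2, h3] at h1
  have hEN : EN Fq t (d + 1) w ≠ 0 := by
    rw [EN_eq_pt]
    exact Finset.prod_ne_zero_iff.2 fun b _ => hne b
  rw [PN_eq ht, mul_inv, inv_inv, ← h1]
  field_simp

lemma tendsto_sum_inv (ht : 1 < ‖t‖) {w : C} (hw : w ∈ Omega Fq t) :
    Tendsto (fun N : ℕ => ∑ b : Fin N → Fq, (w - pt t b)⁻¹) atTop (𝓝 (expA Fq t w)⁻¹) := by
  rw [← tendsto_add_atTop_iff_nat 1]
  have h1 := (tendsto_PN (Fq := Fq) ht w).inv₀ (expA_ne_zero ht hw)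
  refine h1.congr fun d => ?_
  rw [sum_inv ht d hw]

end

theorem t_EXPA : Pool.Agent.J4H98.HP.S_EXPA := by
  intro Fq C _ _ _ _ _ _ _ t ht
  exact ⟨expA_add ht, expA_smul ht, expA_aeval ht, expA_small ht,
    fun z ρ _ h => far_lower ht z ρ h, fun z hz => expA_ne_zero ht hz,
    fun R ε hε => expA_approx ht R ε hε, fun R => expA_lip ht R,
    fun w hw => tendsto_sum_inv ht hw⟩

end Pool.Agent.J4H84.HP
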